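import Mathlib
import Pool.Agent.Q215.KerI

set_option autoImplicit false

/-!
# MP_2e25e6_lc

The directed Schreier graph of the Bernoulli shift of the free group of rank `n ≥ 2` has no
measurable kernel; moreover every measurable set violates the kernel rule on a set of measure at
least `δ > 0`, where `δ` depends only on `n`.
-/

namespace Pool.Agent.Results.MP_2e25e6_lc.NoMeasurableKernel

open MeasureTheory
open scoped ENNReal

/-- the space `2^{F_n}` -/
abbrev X (n : ℕ) : Type := FreeGroup (Fin n) → Bool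

/-- the shift `(g · x)(h) = x(hg)` -/
def act {n : ℕ} (g : FreeGroup (Fin n)) (x : X n) : X n := fun h => x (h * g)

/-- the free part -/
def FreePart (n : ℕ) : Set (X n) := {x | ∀ g : FreeGroup (Fin n), g ≠ 1 → act g x ≠ x}

/-- the uniform measure on `{0,1}` -/
noncomputable def coin : Measure Bool :=
  (2⁻¹ : ℝ≥0∞) • Measure.dirac true + (2⁻¹ : ℝ≥0∞) • Measure.dirac false

/-- the product measure -/
noncomputable def mu (n : ℕ) : Measure (X n) := Measure.infinitePi fun _ => coin

/-- the arcs `x → s · x`, `s` a free generator -/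
def Arc {n : ℕ} (x y : X n) : Prop := ∃ i : Fin n, y = act (FreeGroup.of i) x

/-- adjacency in the underlying graph -/
def Adj {n : ℕ} (x y : X n) : Prop := Arc x y ∨ Arc y x

/-- `A` is a kernel of the directed graph induced on `Y` -/
structure IsKernel {n : ℕ} (Y A : Set (X n)) : Prop where
  sub : A ⊆ Y
  indep : ∀ x ∈ A, ∀ y ∈ A, ¬ Adj x y
  dom : ∀ x ∈ Y, x ∉ A → ∃ y ∈ A, Arc x y

/-- there is a measurable kernel -/
def HasMeasurableKernel (n : ℕ) : Prop := ∃ Y A : Set (X n), MeasurableSet Y ∧ Y ⊆ FreePart n ∧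
  (∀ g : FreeGroup (Fin n), ∀ x ∈ Y, act g x ∈ Y) ∧ mu n Y = 1 ∧ MeasurableSet A ∧ IsKernel Y A

/-- There is no measurable kernel, and every measurable set is far from being a kernel. -/
theorem result : ∀ n : ℕ, 2 ≤ n → ¬ HasMeasurableKernel n ∧
    ∃ δ : ℝ, 0 < δ ∧ ∀ A : Set (X n), MeasurableSet A →
      δ ≤ (mu n).real {x | ¬ (x ∈ A ↔ ∀ i : Fin n, act (FreeGroup.of i) x ∉ A)} := by
  intro n hn
  obtain ⟨δ, hδ, h⟩ := Pool.Agent.Q215.Ker.main (ι := Fin n) (by simpa using hn)
  have h' : ∀ A : Set (X n), MeasurableSet A →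
      δ ≤ (mu n).real {x | ¬ (x ∈ A ↔ ∀ i : Fin n, act (FreeGroup.of i) x ∉ A)} := h
  refine ⟨?_, δ, hδ, h'⟩
  rintro ⟨Y, A, hY, -, -, hY1, hA, hker⟩
  have h1 := h' A hA
  have hp : IsProbabilityMeasure (mu n) := by
    have hc : IsProbabilityMeasure coin := Pool.Agent.Q215.Ker.unif_prob
    unfold mu
    infer_instance
  have hsub : {x | ¬ (x ∈ A ↔ ∀ i : Fin n, act (FreeGroup.of i) x ∉ A)} ⊆ Yᶜ := by
    intro x hx hxY
    apply hx
    constructor
    · intro hxA i hi
      exact hker.indep x hxA _ hi (Or.inl ⟨i, rfl⟩)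
    · intro hall
      by_contra hxA
      obtain ⟨y, hy, i, rfl⟩ := hker.dom x hxY hxA
      exact hall i hy
  have h2 : mu n Yᶜ = 0 := (prob_compl_eq_zero_iff hY).mpr hY1
  have h3 : (mu n).real {x | ¬ (x ∈ A ↔ ∀ i : Fin n, act (FreeGroup.of i) x ∉ A)} = 0 := by
    rw [measureReal_def, measure_mono_null hsub h2]
    rfl
  rw [h3] at h1
  exact absurd h1 (not_le.mpr hδ)

end Pool.Agent.Results.MP_2e25e6_lc.NoMeasurableKernel
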